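import Pool.Agent.T2H58.DQ.Gen

/-!
# Counts of primes with prescribed local conditions along sequences with a level of distribution
-/

set_option autoImplicit false

namespace Pool.Agent.T2H53.FL

open Finset
open Pool.Agent.T2H58.DQ

open Classical in
/-- the number of the primes `p ≤ x` with `T p n` -/
noncomputable def cn (T : ℕ → ℤ → Prop) (x : ℕ) (n : ℤ) : ℕ :=
  ((range (x + 1)).filter (fun p => p.Prime ∧ T p n)).card

open Classical in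
/-- the sum over the primes `p ≤ x` of the proportion of the residues `t` modulo `p` with `T p t` -/
noncomputable def vv (T : ℕ → ℤ → Prop) (x : ℕ) : ℝ :=
  ∑ p ∈ (range (x + 1)).filter Nat.Prime, (((range p).filter (fun t : ℕ => T p (t : ℤ))).card : ℝ) / p

/-- the condition depends on `n` modulo `p` only -/
def Loc (T : ℕ → ℤ → Prop) : Prop := ∀ p : ℕ, p.Prime → ∀ a b : ℤ, (p : ℤ) ∣ a - b → (T p a ↔ T p b)

theorem law (δ : ℝ) (κ B : ℕ) (hδ : 0 < δ) (θ C₁ : ℝ) (hθ : 0 < θ) (hC₁ : 1 ≤ C₁) : ∃ W X₀ : ℕ, 1 ≤ W ∧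
    ∀ (ι : Type) (R : ℕ → Finset ι) (T : ι → ℕ → ℤ → Prop), (∀ x, (R x).card ≤ x ^ B) → (∀ s, Loc (T s)) →
      ∀ (X N : ℕ) (D : ℕ → ℤ), X₀ ≤ X → Equi D N ((N : ℝ) ^ θ) (C₁ * (N : ℝ) ^ (1 - θ)) →
        (({j : ℕ | 1 ≤ j ∧ j ≤ N ∧ ∃ x : ℕ, X ≤ x ∧ x ^ W ≤ N ∧ ∃ s ∈ R x,
          √(max 1 (vv (T s) x)) * (x : ℝ) ^ δ < |(cn (T s) x (D j) : ℝ) - vv (T s) x|}).ncard : ℝ) * (X : ℝ) ^ κ ≤ N := by
  classical
  obtain ⟨W, X₀, hW, hX₀, hgen⟩ := general_seq δ κ B hδ θ C₁ hθ hC₁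
  refine ⟨W, X₀, hW, ?_⟩
  intro ι R T hR hT X N D hX hEq
  obtain ⟨g, hg⟩ : ∃ g : ℕ → ι → ℕ → ℕ → ℝ, g = fun (_ : ℕ) (s : ι) (p j : ℕ) =>
      if T s p (j : ℤ) then (1 : ℝ) else 0 := ⟨_, rfl⟩
  have hsys : ∀ x s, Pool.Agent.R418.GE.Sys (g x s) := by
    intro x s
    rw [hg]
    refine ⟨fun p n => ?_, fun p hp n => ?_⟩
    · simp only
      split_ifs <;> norm_num
    · simp only
      have key : T s p ((n + p : ℕ) : ℤ) ↔ T s p (n : ℤ) := hT s p hp _ _ ⟨1, by push_cast; ring⟩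
      exact if_congr key rfl rfl
  have hcnt : ∀ x s j, cntz (g x s) x (D j) = (cn (T s) x (D j) : ℝ) := by
    intro x s j
    have h0 : cntz (g x s) x (D j) = ∑ p ∈ Pool.Agent.R418.GE.pr x, (if T s p (D j) then (1 : ℝ) else 0) := by
      rw [cntz, hg]
      simp only
      refine sum_congr rfl fun p hp => ?_
      have hpp := (Pool.Agent.R418.GE.mem_pr.1 hp).1
      have hp0 : (p : ℤ) ≠ 0 := by exact_mod_cast hpp.ne_zero
      refine if_congr (hT s p hpp _ _ ?_) rfl rfl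
      unfold res
      rw [Int.toNat_of_nonneg (Int.emod_nonneg _ hp0)]
      exact ⟨-(D j / p), by rw [Int.emod_def]; ring⟩
    rw [h0, cn, Pool.Agent.R418.GE.pr, ← sum_filter, sum_const, nsmul_eq_mul, mul_one, filter_filter]
  have hmdl : ∀ x s, Pool.Agent.R418.GE.mdl (g x s) x = vv (T s) x := by
    intro x s
    rw [Pool.Agent.R418.GE.mdl, vv, Pool.Agent.R418.GE.pr]
    refine sum_congr rfl fun p _ => ?_
    rw [Pool.Agent.R418.GE.mean, hg]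
    simp only
    rw [← sum_filter, sum_const, nsmul_eq_mul, mul_one]
  have hfin : ({j : ℕ | 1 ≤ j ∧ j ≤ N ∧ ∃ x : ℕ, X ≤ x ∧ x ^ W ≤ N ∧ ∃ s ∈ R x,
          √(max 1 (vv (T s) x)) * (x : ℝ) ^ δ < |(cn (T s) x (D j) : ℝ) - vv (T s) x|} : Set ℕ).Finite :=
    (Set.finite_Iic N).subset fun j hj => hj.2.1
  rw [Set.ncard_eq_toFinset_card _ hfin]
  refine hgen _ R g hR hsys X N D hX hEq _ fun j hj => ?_
  obtain ⟨hj0, hjN, x, hx1, hx2, s, hs, hbad⟩ := (Set.Finite.mem_toFinset hfin).1 hj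
  refine ⟨hj0, hjN, x, hx1, hx2, s, hs, ?_⟩
  rw [hcnt, hmdl]
  exact hbad

theorem cn_zero {T : ℕ → ℤ → Prop} {x : ℕ} (h : ∀ p ≤ x, ∀ n, p.Prime → ¬ T p n) (n : ℤ) : cn T x n = 0 := by
  classical
  rw [cn, card_eq_zero, filter_eq_empty_iff]
  intro p hp hT
  rw [mem_range] at hp
  exact h p (by omega) n hT.1 hT.2

theorem vv_zero {T : ℕ → ℤ → Prop} {x : ℕ} (h : ∀ p ≤ x, ∀ n, p.Prime → ¬ T p n) : vv T x = 0 := by
  classical
  rw [vv]
  refine sum_eq_zero fun p hp => ?_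
  rw [mem_filter, mem_range] at hp
  have h1 : ((range p).filter (fun t : ℕ => T p (t : ℤ))) = ∅ := by
    rw [filter_eq_empty_iff]
    intro t _ ht
    exact h p (by omega) _ hp.2 ht
  rw [h1]
  simp

/-- Transfer of one-sided bounds, numerical part. -/
theorem numeric (ε : ℝ) (hε : 0 < ε) : ∃ X₁ : ℕ, ∀ x : ℕ, X₁ ≤ x → ∀ b k Y : ℝ, 0 ≤ b → (x : ℝ) ^ (1 / 4 : ℝ) ≤ Y →
    |k - b| ≤ √(max 1 b) * (x : ℝ) ^ (1 / 16 : ℝ) →
    (b ≤ Y → k ≤ (1 + ε) * Y) ∧ (Y < b → (1 - ε) * Y < k) := by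
  have hbig : Filter.Tendsto (fun x : ℕ => (x : ℝ) ^ (1 / 16 : ℝ)) Filter.atTop Filter.atTop :=
    (tendsto_rpow_atTop (show (0 : ℝ) < 1 / 16 by norm_num)).comp tendsto_natCast_atTop_atTop
  obtain ⟨X₁, hX₁⟩ := Filter.eventually_atTop.1 (hbig.eventually (Filter.eventually_ge_atTop (max 2 (1 / ε))))
  refine ⟨X₁, fun x hx b k Y hb hY hk => ?_⟩
  have h0 := hX₁ x hx
  have hx0 : (0 : ℝ) ≤ x := Nat.cast_nonneg x
  obtain ⟨u, hu⟩ : ∃ u : ℝ, u = (x : ℝ) ^ (1 / 16 : ℝ) := ⟨_, rfl⟩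
  have hu4 : (x : ℝ) ^ (1 / 4 : ℝ) = u ^ 4 := by
    rw [hu, ← Real.rpow_natCast, ← Real.rpow_mul hx0]
    norm_num
  rw [← hu] at h0 hk
  rw [hu4] at hY
  have hu2 : 2 ≤ u := (le_max_left _ _).trans h0
  have hu0 : 0 < u := by linarith
  have huε : 1 / u ≤ ε := by
    have h1 : 1 / ε ≤ u := (le_max_right _ _).trans h0
    rw [div_le_iff₀ hu0]
    rw [div_le_iff₀ hε] at h1
    linarith
  have hu41 : 1 ≤ u ^ 4 := one_le_pow₀ (by linarith)
  have hY1 : 1 ≤ Y := hu41.trans hY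
  -- for `z ≥ Y` we have `√z u ≤ z / u`
  have key : ∀ z : ℝ, Y ≤ z → √z * u ≤ z * (1 / u) := by
    intro z hz
    have hz0 : 0 ≤ z := by linarith
    have h1 : u ^ 2 ≤ √z := by
      apply Real.le_sqrt_of_sq_le
      calc (u ^ 2) ^ 2 = u ^ 4 := by ring
        _ ≤ z := hY.trans hz
    have h2 : √z * √z = z := Real.mul_self_sqrt hz0
    rw [mul_one_div, le_div_iff₀ hu0]
    calc √z * u * u = √z * u ^ 2 := by ring
      _ ≤ √z * √z := by gcongr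
      _ = z := h2
  have h1u : 1 / u ≤ 1 / 2 := one_div_le_one_div_of_le (by norm_num) hu2
  rw [abs_le] at hk
  constructor
  · intro h1
    have h2 : √(max 1 b) ≤ √Y := Real.sqrt_le_sqrt (max_le hY1 h1)
    have h3 : √(max 1 b) * u ≤ √Y * u := by gcongr
    have h4 := key Y le_rfl
    have h5 : Y * (1 / u) ≤ Y * ε := by gcongr
    linarith
  · intro h1
    have hb1 : 1 ≤ b := hY1.trans h1.le
    rw [max_eq_right hb1] at hk
    have h4 := key b h1.le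
    have h6 : (1 - 1 / u) * Y < (1 - 1 / u) * b := by
      apply mul_lt_mul_of_pos_left h1
      linarith
    have h7 : (1 - ε) * Y ≤ (1 - 1 / u) * Y := by
      apply mul_le_mul_of_nonneg_right _ (by linarith)
      linarith
    nlinarith

end Pool.Agent.T2H53.FL
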